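import Pool.Agent.H678R2.PiAdic.Quot

/-! Counting solutions of `g α ≡ f` modulo `π^n` in a box. -/

namespace Pool.Agent.H678R2.PiAdic

open Finset Module

variable {R : Type*} [CommRing R] [IsDomain R] {s : ℕ} {e : Basis (Fin (s + 1)) ℤ R} {ρ : ℝ}
  {π : R} {N : ℕ} {ε : ℤ}

open Classical in
/-- the pairs `(a, f)` with `|f| ≤ Z` and `g a ≡ f` -/
noncomputable def sol (e : Basis (Fin (s + 1)) ℤ R) (ρ : ℝ) (π : R) (N n : ℕ) (Z : ℝ) (g : R) :
    Finset ((Fin n → Fin N) × R) :=
  ((Finset.univ : Finset (Fin n → Fin N)) ×ˢ ball e ρ Z).filter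
    (fun p => π ^ n ∣ g * dig π n p.1 - p.2)

theorem Hyp.card_sol_le (H : Hyp e ρ π N ε) (n : ℕ) {Z : ℝ} (hZ : 1 ≤ Z) {g : R} (hg : g ≠ 0)
    (hgZ : nrm e ρ g ≤ Z) :
    ((sol e ρ π N n Z g).card : ℝ) ≤ (3 * ((1 + (s + 1) * N) * Z)) ^ (s + 1) := by
  classical
  have hρ0 : (0 : ℝ) < ρ := by linarith [H.hρ]
  have : Finite (Rn π n) := H.finite_Rn n
  set mk := Ideal.Quotient.mk (Ideal.span {π ^ n}) with hmk
  set μ : Rn π n →+ Rn π n := AddMonoidHom.mulLeft (mk g) with hμ
  have hKI : Nat.card μ.ker = Nat.card (Rn π n ⧸ μ.range) := by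
    have h1 := AddSubgroup.card_mul_index μ.ker
    have h2 := AddSubgroup.card_mul_index μ.range
    rw [AddSubgroup.index_ker] at h1
    have hpos : 0 < Nat.card μ.range := Nat.card_pos
    have h3 : Nat.card μ.range * Nat.card μ.ker = Nat.card μ.range * μ.range.index := by
      rw [h2, ← h1, mul_comm]
    exact Nat.eq_of_mul_eq_mul_left hpos h3
  set F := (ball e ρ Z).filter (fun f => mk f ∈ μ.range) with hF
  -- the number of solutions is at most |F| |K|
  have h1 : (sol e ρ π N n Z g).card ≤ F.card * Nat.card μ.ker := by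
    have hmaps : ∀ p ∈ sol e ρ π N n Z g, p.2 ∈ F := by
      rintro ⟨a, f⟩ hp
      unfold sol at hp
      rw [Finset.mem_filter, Finset.mem_product] at hp
      rw [hF, Finset.mem_filter]
      refine ⟨hp.1.2, ⟨mk (dig π n a), ?_⟩⟩
      show mk g * mk (dig π n a) = mk f
      rw [← map_mul]
      exact (mk_eq_iff π n _ _).2 hp.2
    rw [Finset.card_eq_sum_card_fiberwise hmaps]
    calc ∑ f ∈ F, ((sol e ρ π N n Z g).filter (fun p => p.2 = f)).card
        ≤ ∑ f ∈ F, Nat.card μ.ker := by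
          apply Finset.sum_le_sum
          intro f _
          rcases ((sol e ρ π N n Z g).filter (fun p => p.2 = f)).eq_empty_or_nonempty with h0 | ⟨p0, hp0⟩
          · rw [h0]; simp
          · have hfib : ∀ p ∈ (sol e ρ π N n Z g).filter (fun p => p.2 = f),
                mk (dig π n p.1) - mk (dig π n p0.1) ∈ μ.ker := by
              intro p hp
              unfold sol at hp hp0
              rw [Finset.mem_filter, Finset.mem_filter] at hp hp0
              rw [AddMonoidHom.mem_ker, map_sub]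
              show mk g * mk (dig π n p.1) - mk g * mk (dig π n p0.1) = 0
              rw [← map_mul, ← map_mul, (mk_eq_iff π n _ _).2 hp.1.2,
                (mk_eq_iff π n _ _).2 hp0.1.2, hp.2, hp0.2, sub_self]
            have hcard := Finset.card_le_card_of_injOn
              (s := (sol e ρ π N n Z g).filter (fun p => p.2 = f))
              (t := (Set.toFinite (μ.ker : Set (Rn π n))).toFinset)
              (fun p => mk (dig π n p.1) - mk (dig π n p0.1))
              (fun p hp => by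
                rw [Finset.mem_coe, Set.Finite.mem_toFinset]
                exact hfib p hp)
              (by
                intro p hp q hq hpq
                have hp' := (Finset.mem_filter.1 (Finset.mem_coe.1 hp)).2
                have hq' := (Finset.mem_filter.1 (Finset.mem_coe.1 hq)).2
                have h2 : mk (dig π n p.1) = mk (dig π n q.1) := sub_left_inj.1 hpq
                have h3 := H.dig_inj n _ _ ((mk_eq_iff π n _ _).1 h2)
                exact Prod.ext h3 (hp'.trans hq'.symm))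
            refine hcard.trans (le_of_eq ?_)
            rw [← Nat.card_eq_card_finite_toFinset]
            rfl
      _ = F.card * Nat.card μ.ker := by rw [Finset.sum_const, smul_eq_mul]
  -- small representatives of the cosets
  have hrep : ∀ c : Rn π n ⧸ μ.range, ∃ t : R,
      nrm e ρ t ≤ (s + 1) * N * Z ∧ ((mk t : Rn π n) : Rn π n ⧸ μ.range) = c := by
    intro c
    obtain ⟨y, rfl⟩ := QuotientAddGroup.mk_surjective c
    obtain ⟨x, rfl⟩ := Ideal.Quotient.mk_surjective y
    obtain ⟨t, ⟨k, hk⟩, ht⟩ := H.exists_small hg x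
    refine ⟨t, ht.trans ?_, ?_⟩
    · exact mul_le_mul_of_nonneg_left hgZ (by positivity)
    · rw [QuotientAddGroup.eq]
      refine ⟨mk k, ?_⟩
      show mk g * mk k = -mk t + mk x
      rw [← map_mul, ← hk, map_sub]
      ring
  choose t ht1 ht2 using hrep
  -- injection into a larger ball
  have : Finite (Rn π n ⧸ μ.range) := inferInstance
  have : Fintype (Rn π n ⧸ μ.range) := Fintype.ofFinite _
  have hZ0 : 0 ≤ Z := by linarith
  have hC0 : (0 : ℝ) ≤ (1 + (s + 1) * N) * Z := by positivity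
  have h2 : F.card * Nat.card μ.ker ≤ (ball e ρ ((1 + (s + 1) * N) * Z)).card := by
    rw [hKI, Nat.card_eq_fintype_card, ← Finset.card_univ, ← Finset.card_product]
    apply Finset.card_le_card_of_injOn (fun p => p.1 + t p.2)
    · rintro ⟨f, c⟩ hp
      simp only [Finset.coe_product, Set.mem_prod, Finset.mem_coe] at hp
      rw [Finset.mem_coe, mem_ball e ρ hρ0 hC0]
      have hf := (Finset.mem_filter.1 hp.1).1
      rw [mem_ball e ρ hρ0 hZ0] at hf
      have := nrm_add_le e ρ f (t c)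
      have := ht1 c
      simp only
      linarith
    · rintro ⟨f, c⟩ hp ⟨f', c'⟩ hp' heq
      simp only [Finset.coe_product, Set.mem_prod, Finset.mem_coe] at hp hp' heq
      have hf := (Finset.mem_filter.1 hp.1).2
      have hf' := (Finset.mem_filter.1 hp'.1).2
      have hcc : c = c' := by
        rw [← ht2 c, ← ht2 c', QuotientAddGroup.eq]
        have h3 : -mk (t c) + mk (t c') = mk f - mk f' := by
          have h4 : mk (f + t c) = mk (f' + t c') := by rw [heq]
          rw [map_add, map_add] at h4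
          have h5 : mk f - mk f' = (mk f + mk (t c)) - mk f' - mk (t c) := by ring
          rw [h5, h4]
          ring
        rw [h3]
        exact μ.range.sub_mem hf hf'
      subst hcc
      rw [add_left_inj] at heq
      rw [heq]
  have h3 : ((sol e ρ π N n Z g).card : ℝ) ≤ (ball e ρ ((1 + (s + 1) * N) * Z)).card := by
    exact_mod_cast h1.trans h2
  refine h3.trans (card_ball_le e ρ H.hρ ?_)
  have : (1 : ℝ) ≤ 1 + (s + 1) * N := by
    have : (0 : ℝ) ≤ (s + 1) * N := by positivity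
    linarith
  nlinarith

/-- the case `g = 0` -/
theorem Hyp.card_sol_zero_le (H : Hyp e ρ π N ε) (n : ℕ) {Z W : ℝ} (hZ : 0 ≤ Z) (hW : 1 ≤ W)
    (hZW : Z ≤ ρ ^ n * W) :
    ((sol e ρ π N n Z 0).card : ℝ) ≤ (N : ℝ) ^ n * (3 * W) ^ (s + 1) := by
  classical
  have hρ0 : (0 : ℝ) < ρ := by linarith [H.hρ]
  have h1 : (sol e ρ π N n Z 0).card ≤
      ((Finset.univ : Finset (Fin n → Fin N)) ×ˢ ball e ρ W).card := by
    have hex : ∀ p : (Fin n → Fin N) × R, ∃ h : R, p ∈ sol e ρ π N n Z 0 → p.2 = π ^ n * h := by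
      intro p
      by_cases hp : p ∈ sol e ρ π N n Z 0
      · have := (Finset.mem_filter.1 hp).2
        rw [zero_mul, zero_sub, dvd_neg] at this
        obtain ⟨h, hh⟩ := this
        exact ⟨h, fun _ => hh⟩
      · exact ⟨0, fun h => absurd h hp⟩
    choose h hh using hex
    apply Finset.card_le_card_of_injOn (fun p => (p.1, h p))
    · intro p hp
      have hp' : p ∈ sol e ρ π N n Z 0 := hp
      have h2 := (Finset.mem_product.1 (Finset.mem_filter.1 hp').1).2
      rw [mem_ball e ρ hρ0 hZ, hh p hp',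
        nrm_pi_pow_mul e ρ π N ε H.hρ H.hρN H.hε H.he H.hπ] at h2
      simp only [Finset.coe_product, Set.mem_prod, Finset.mem_coe]
      refine ⟨Finset.mem_univ _, ?_⟩
      rw [mem_ball e ρ hρ0 (by linarith)]
      exact le_of_mul_le_mul_left (h2.trans hZW) (pow_pos hρ0 n)
    · intro p hp q hq hpq
      have hp' : p ∈ sol e ρ π N n Z 0 := hp
      have hq' : q ∈ sol e ρ π N n Z 0 := hq
      simp only [Prod.mk.injEq] at hpq
      apply Prod.ext hpq.1
      rw [hh p hp', hh q hq', hpq.2]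
  have h2 : ((sol e ρ π N n Z 0).card : ℝ) ≤ (N : ℝ) ^ n * (ball e ρ W).card := by
    have : (((Finset.univ : Finset (Fin n → Fin N)) ×ˢ ball e ρ W).card : ℝ)
        = (N : ℝ) ^ n * (ball e ρ W).card := by
      rw [Finset.card_product, Finset.card_univ]
      simp
    rw [← this]
    exact_mod_cast h1
  refine h2.trans ?_
  exact mul_le_mul_of_nonneg_left (card_ball_le e ρ H.hρ hW) (by positivity)

open Classical in
/-- number of lattice points of `{(f, g) : g α ≡ f}` in the box of radius `Z` -/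
noncomputable def mult (e : Basis (Fin (s + 1)) ℤ R) (ρ : ℝ) (π : R) (N n : ℕ) (Z : ℝ)
    (a : Fin n → Fin N) : ℕ :=
  ((ball e ρ Z ×ˢ ball e ρ Z).filter (fun p => π ^ n ∣ p.2 * dig π n a - p.1)).card

theorem sum_mult (e : Basis (Fin (s + 1)) ℤ R) (ρ : ℝ) (π : R) (N n : ℕ) (Z : ℝ) :
    ∑ a : Fin n → Fin N, mult e ρ π N n Z a = ∑ g ∈ ball e ρ Z, (sol e ρ π N n Z g).card := by
  classical
  unfold mult sol
  have h1 : ∀ a : Fin n → Fin N,
      ((ball e ρ Z ×ˢ ball e ρ Z).filter (fun p => π ^ n ∣ p.2 * dig π n a - p.1)).card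
      = ∑ g ∈ ball e ρ Z, ∑ f ∈ ball e ρ Z, if π ^ n ∣ g * dig π n a - f then 1 else 0 := by
    intro a
    rw [Finset.card_filter, Finset.sum_product, Finset.sum_comm]
  have h2 : ∀ g : R,
      (((Finset.univ : Finset (Fin n → Fin N)) ×ˢ ball e ρ Z).filter
        (fun p => π ^ n ∣ g * dig π n p.1 - p.2)).card
      = ∑ a : Fin n → Fin N, ∑ f ∈ ball e ρ Z, if π ^ n ∣ g * dig π n a - f then 1 else 0 := by
    intro g
    rw [Finset.card_filter, Finset.sum_product]
  simp only [h1, h2]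
  rw [Finset.sum_comm]

/-- The scale `Y₀ = √(ρ^n)`. -/
theorem Hyp.sum_mult_le (H : Hyp e ρ π N ε) (n : ℕ) :
    (∑ a : Fin n → Fin N, (mult e ρ π N n (2 * (N * Real.sqrt (ρ ^ n))) a : ℝ))
      ≤ ((6 * N : ℝ) ^ (s + 1) + (36 * (1 + (s + 1) * N) * N ^ 2) ^ (s + 1)) * (N : ℝ) ^ n := by
  classical
  have hρ0 : (0 : ℝ) < ρ := by linarith [H.hρ]
  have hN1 : (1 : ℝ) ≤ N := by
    have := H.N2
    exact_mod_cast (by omega : 1 ≤ N)
  set Y := Real.sqrt (ρ ^ n) with hY
  have hY1 : 1 ≤ Y := by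
    rw [hY, Real.one_le_sqrt]
    exact one_le_pow₀ H.hρ
  have hYY : Y ^ 2 = ρ ^ n := Real.sq_sqrt (by positivity)
  set Z : ℝ := 2 * (N * Y) with hZ
  have hZ1 : 1 ≤ Z := by rw [hZ]; nlinarith
  have h1 : (∑ a : Fin n → Fin N, (mult e ρ π N n Z a : ℝ))
      = ∑ g ∈ ball e ρ Z, ((sol e ρ π N n Z g).card : ℝ) := by
    exact_mod_cast sum_mult e ρ π N n Z
  have h0mem : (0 : R) ∈ ball e ρ Z := by
    rw [mem_ball e ρ hρ0 (by linarith), nrm_zero]; linarith
  rw [h1, ← Finset.add_sum_erase _ _ h0mem]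
  have h2 : ((sol e ρ π N n Z 0).card : ℝ) ≤ (N : ℝ) ^ n * (3 * (2 * N)) ^ (s + 1) := by
    apply H.card_sol_zero_le n (by linarith) (by linarith)
    rw [← hYY, hZ]
    nlinarith [mul_nonneg (by linarith : (0 : ℝ) ≤ N) (by linarith : (0 : ℝ) ≤ Y),
      mul_le_mul_of_nonneg_left hY1 (by linarith : (0 : ℝ) ≤ Y)]
  have h3 : ∑ g ∈ (ball e ρ Z).erase 0, ((sol e ρ π N n Z g).card : ℝ)
      ≤ (3 * Z) ^ (s + 1) * (3 * ((1 + (s + 1) * N) * Z)) ^ (s + 1) := by
    calc ∑ g ∈ (ball e ρ Z).erase 0, ((sol e ρ π N n Z g).card : ℝ)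
        ≤ ∑ g ∈ (ball e ρ Z).erase 0, (3 * ((1 + (s + 1) * N) * Z)) ^ (s + 1) := by
          apply Finset.sum_le_sum
          intro g hg
          rw [Finset.mem_erase, mem_ball e ρ hρ0 (by linarith)] at hg
          exact H.card_sol_le n hZ1 hg.1 hg.2
      _ = ((ball e ρ Z).erase 0).card * (3 * ((1 + (s + 1) * N) * Z)) ^ (s + 1) := by
          rw [Finset.sum_const, nsmul_eq_mul]
      _ ≤ (3 * Z) ^ (s + 1) * (3 * ((1 + (s + 1) * N) * Z)) ^ (s + 1) := by
          apply mul_le_mul_of_nonneg_right _ (by positivity)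
          refine le_trans ?_ (card_ball_le e ρ H.hρ hZ1)
          exact_mod_cast Finset.card_le_card (Finset.erase_subset _ _)
  have h4 : (3 * Z) ^ (s + 1) * (3 * ((1 + (s + 1) * N) * Z)) ^ (s + 1)
      = (36 * (1 + (s + 1) * N) * N ^ 2) ^ (s + 1) * (N : ℝ) ^ n := by
    have h5 : (N : ℝ) ^ n = (Y ^ 2) ^ (s + 1) := by
      rw [hYY, ← H.hρN, ← pow_mul, ← pow_mul, mul_comm]
    rw [h5, ← mul_pow, ← mul_pow, hZ]
    congr 1
    ring
  rw [h4] at h3
  have h6 : (N : ℝ) ^ n * (3 * (2 * N)) ^ (s + 1) = (6 * N : ℝ) ^ (s + 1) * (N : ℝ) ^ n := by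
    rw [mul_comm]; congr 2; ring
  rw [h6] at h2
  linarith

end Pool.Agent.H678R2.PiAdic
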