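import Pool.Agent.H678R2.PiAdic.Count

/-! A lattice vector with second coordinate `≡ 1` modulo `π`. -/

namespace Pool.Agent.H678R2.PiAdic

open Finset Module
open scoped Pointwise

variable {R : Type*} [CommRing R] [IsDomain R] {s : ℕ} {e : Basis (Fin (s + 1)) ℤ R} {ρ : ℝ}
  {π : R} {N : ℕ} {ε : ℤ}

theorem Hyp.exists_good (H : Hyp e ρ π N ε) (n : ℕ) (a : Fin n → Fin N) :
    ∃ f g : R, π ∣ g - 1 ∧ π ^ n ∣ g * dig π n a - f ∧
      nrm e ρ f ≤ 3 * N ^ 2 * mult e ρ π N n (2 * (N * Real.sqrt (ρ ^ n))) a * Real.sqrt (ρ ^ n) ∧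
      nrm e ρ g ≤ 3 * N ^ 2 * mult e ρ π N n (2 * (N * Real.sqrt (ρ ^ n))) a * Real.sqrt (ρ ^ n) := by
  classical
  have hρ0 : (0 : ℝ) < ρ := by linarith [H.hρ]
  have hN1 : (1 : ℝ) ≤ N := by
    have := H.N2
    exact_mod_cast (by omega : 1 ≤ N)
  set Y := Real.sqrt (ρ ^ n) with hY
  have hY1 : 1 ≤ Y := by
    rw [hY, Real.one_le_sqrt]
    exact one_le_pow₀ H.hρ
  have hYY : Y ^ 2 = ρ ^ n := Real.sq_sqrt (by positivity)
  set X : ℝ := N * Y with hX
  have hXN : (N : ℝ) ≤ X := by rw [hX]; nlinarith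
  have hX0 : 0 ≤ X := by linarith
  set m := mult e ρ π N n (2 * X) a with hm
  have hfin1 : Finite (Rn π n) := H.finite_Rn n
  have hfin2 : Finite (Rn π 1) := H.finite_Rn 1
  have : Fintype (Rn π n) := Fintype.ofFinite _
  have : Fintype (Rn π 1) := Fintype.ofFinite _
  set mk := Ideal.Quotient.mk (Ideal.span {π ^ n}) with hmk
  set mk1 := Ideal.Quotient.mk (Ideal.span {π ^ 1}) with hmk1
  set α := dig π n a with hα
  -- the homomorphism
  set γ : R × R →+ Rn π n × Rn π 1 :=
    { toFun := fun v => (mk (v.1 - v.2 * α), mk1 v.2)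
      map_zero' := by simp
      map_add' := by
        rintro ⟨f, g⟩ ⟨f', g'⟩
        simp only [Prod.mk_add_mk, Prod.mk.injEq]
        refine ⟨?_, map_add _ _ _⟩
        rw [← map_add]
        congr 1
        ring } with hγ
  have hγapp : ∀ v, γ v = (mk (v.1 - v.2 * α), mk1 v.2) := fun v => rfl
  set B := ball e ρ X ×ˢ ball e ρ X with hB
  set A := B.image γ with hA
  have hBmem : ∀ v : R × R, v ∈ B ↔ nrm e ρ v.1 ≤ X ∧ nrm e ρ v.2 ≤ X := by
    intro v
    rw [hB, Finset.mem_product, mem_ball e ρ hρ0 hX0, mem_ball e ρ hρ0 hX0]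
  have h0A : (0 : Rn π n × Rn π 1) ∈ A := by
    rw [hA, Finset.mem_image]
    refine ⟨0, ?_, map_zero γ⟩
    rw [hBmem]
    simp only [Prod.fst_zero, Prod.snd_zero, nrm_zero]
    exact ⟨hX0, hX0⟩
  have hnegA : ∀ x ∈ A, -x ∈ A := by
    intro x hx
    rw [hA, Finset.mem_image] at hx ⊢
    obtain ⟨v, hv, rfl⟩ := hx
    refine ⟨-v, ?_, map_neg γ v⟩
    rw [hBmem] at hv ⊢
    simp only [Prod.fst_neg, Prod.snd_neg, nrm_neg]
    exact hv
  have hei : ∀ i : Fin (s + 1), nrm e ρ (e i) ≤ X := by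
    intro i
    refine le_trans ?_ hXN
    rw [nrm_le_iff e ρ hρ0.le _ (by linarith)]
    intro j
    rw [Basis.repr_self]
    have h1 : ρ ^ (j : ℕ) ≤ N := by
      rw [← H.hρN]
      exact pow_le_pow_right₀ H.hρ j.2.le
    by_cases hij : i = j
    · subst hij
      simp [h1]
    · rw [Finsupp.single_eq_of_ne (Ne.symm hij)]
      simp
  have hgen : AddSubgroup.closure (A : Set (Rn π n × Rn π 1)) = ⊤ := by
    rw [eq_top_iff]
    rintro ⟨x, y⟩ _
    obtain ⟨x, rfl⟩ := Ideal.Quotient.mk_surjective x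
    obtain ⟨y, rfl⟩ := Ideal.Quotient.mk_surjective y
    have h1 : ((Ideal.Quotient.mk (Ideal.span {π ^ n})) x, (Ideal.Quotient.mk (Ideal.span {π ^ 1})) y)
        = γ (x + y * α, y) := by
      rw [hγapp]
      simp only [add_sub_cancel_right]
      rfl
    rw [h1]
    have h2 : ((x + y * α, y) : R × R)
        = ∑ i, e.repr (x + y * α) i • ((e i, 0) : R × R) + ∑ i, e.repr y i • ((0, e i) : R × R) := by
      apply Prod.ext
      · rw [Prod.fst_add, Prod.fst_sum, Prod.fst_sum]
        simp only [Prod.smul_mk, smul_zero, Finset.sum_const_zero, add_zero]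
        exact (e.sum_repr _).symm
      · rw [Prod.snd_add, Prod.snd_sum, Prod.snd_sum]
        simp only [Prod.smul_mk, smul_zero, Finset.sum_const_zero, zero_add]
        exact (e.sum_repr _).symm
    rw [h2, map_add, map_sum, map_sum]
    apply AddSubgroup.add_mem
    · apply AddSubgroup.sum_mem
      intro i _
      rw [map_zsmul]
      apply AddSubgroup.zsmul_mem
      apply AddSubgroup.subset_closure
      rw [hA, Finset.coe_image]
      refine ⟨_, ?_, rfl⟩
      rw [Finset.mem_coe, hBmem]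
      simp only [nrm_zero]
      exact ⟨hei i, hX0⟩
    · apply AddSubgroup.sum_mem
      intro i _
      rw [map_zsmul]
      apply AddSubgroup.zsmul_mem
      apply AddSubgroup.subset_closure
      rw [hA, Finset.coe_image]
      refine ⟨_, ?_, rfl⟩
      rw [Finset.mem_coe, hBmem]
      simp only [nrm_zero]
      exact ⟨hX0, hei i⟩
  obtain ⟨j, hj1, hj2⟩ := exists_iter_eq_univ h0A hnegA hgen
  -- fibres
  have hfib : B.card ≤ m * A.card := by
    rw [hA]
    apply Finset.card_le_mul_card_image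
    intro x hx
    obtain ⟨v0, hv0, hv0x⟩ := Finset.mem_image.1 hx
    rw [hm]
    unfold mult
    apply Finset.card_le_card_of_injOn (fun v => v - v0)
    · intro v hv
      rw [Finset.mem_coe, Finset.mem_filter] at hv
      rw [hBmem] at hv hv0
      rw [Finset.mem_coe, Finset.mem_filter, Finset.mem_product, mem_ball e ρ hρ0 (by linarith),
        mem_ball e ρ hρ0 (by linarith)]
      refine ⟨⟨?_, ?_⟩, ?_⟩
      · have := nrm_sub_le e ρ v.1 v0.1
        simp only [Prod.fst_sub]
        linarith [hv.1.1, hv0.1]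
      · have := nrm_sub_le e ρ v.2 v0.2
        simp only [Prod.snd_sub]
        linarith [hv.1.2, hv0.2]
      · have h1 : γ (v - v0) = 0 := by rw [map_sub, hv.2, hv0x, sub_self]
        rw [hγapp] at h1
        have h2 := congrArg Prod.fst h1
        simp only [Prod.fst_zero] at h2
        rw [← map_zero mk] at h2
        have h3 := (mk_eq_iff π n _ _).1 h2
        rw [sub_zero] at h3
        have h4 : (v - v0).2 * dig π n a - (v - v0).1 = -((v - v0).1 - (v - v0).2 * α) := by
          rw [hα]; ring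
        rw [h4]
        exact dvd_neg.2 h3
    · intro v _ w _ h
      exact sub_left_inj.1 h
  -- cardinalities
  have hG : Fintype.card (Rn π n × Rn π 1) = N ^ n * N := by
    rw [Fintype.card_prod, ← Nat.card_eq_fintype_card, ← Nat.card_eq_fintype_card, H.card_Rn,
      H.card_Rn, pow_one]
  rw [hG] at hj1
  have hBlow : (N : ℝ) ^ n ≤ B.card := by
    have h1 := le_card_ball e ρ H.hρ (K := N) (fun i => by
      rw [← H.hρN]; exact pow_le_pow_right₀ H.hρ i.2.le) hX0
    have h2 : (N : ℝ) ^ n * (N : ℝ) ^ (2 * (s + 1)) = (X ^ (s + 1)) ^ 2 := by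
      have h5 : (N : ℝ) ^ n = (Y ^ 2) ^ (s + 1) := by
        rw [hYY, ← H.hρN, ← pow_mul, ← pow_mul, mul_comm]
      rw [h5, hX, ← pow_mul, ← pow_mul, mul_pow]
      ring
    have h3 : (X ^ (s + 1)) ^ 2 ≤ ((ball e ρ X).card * (N : ℝ) ^ (s + 1)) ^ 2 :=
      pow_le_pow_left₀ (by positivity) h1 2
    rw [← h2] at h3
    have h4 : ((ball e ρ X).card * (N : ℝ) ^ (s + 1)) ^ 2 = (B.card : ℝ) * (N : ℝ) ^ (2 * (s + 1)) := by
      rw [hB, Finset.card_product]
      push_cast
      ring
    rw [h4] at h3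
    exact le_of_mul_le_mul_right h3 (by positivity)
  have hjm : (j : ℝ) ≤ 3 * N * m := by
    have h1 : (j : ℝ) * B.card ≤ 3 * (N ^ n * N) * m := by
      have h2 : j * B.card ≤ 3 * (N ^ n * N) * m := by
        calc j * B.card ≤ j * (m * A.card) := Nat.mul_le_mul_left _ hfib
          _ = (j * A.card) * m := by ring
          _ ≤ 3 * (N ^ n * N) * m := Nat.mul_le_mul_right _ hj1
      exact_mod_cast h2
    have h3 : (j : ℝ) * (N : ℝ) ^ n ≤ j * B.card := mul_le_mul_of_nonneg_left hBlow (by positivity)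
    have h4 : (N : ℝ) ^ n * j ≤ (N : ℝ) ^ n * (3 * N * m) := by
      have : (3 : ℝ) * (N ^ n * N) * m = (N : ℝ) ^ n * (3 * N * m) := by ring
      linarith
    exact le_of_mul_le_mul_left h4 (by positivity)
  -- lift
  have hlift : ∀ (k : ℕ) (x : Rn π n × Rn π 1), x ∈ iter A k →
      ∃ v : R × R, γ v = x ∧ nrm e ρ v.1 ≤ k * X ∧ nrm e ρ v.2 ≤ k * X := by
    intro k
    induction k with
    | zero =>
      intro x hx
      have : x = 0 := by simpa [iter] using hx
      subst this
      refine ⟨0, map_zero γ, ?_, ?_⟩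
      · simp [nrm_zero]
      · simp [nrm_zero]
    | succ k ih =>
      intro x hx
      have hx' := Finset.mem_add.1 (show x ∈ iter A k + A from hx)
      obtain ⟨y, hy, z, hz, rfl⟩ := hx'
      obtain ⟨v, hv, hv1, hv2⟩ := ih y hy
      obtain ⟨w, hw, rfl⟩ := Finset.mem_image.1 hz
      rw [hBmem] at hw
      refine ⟨v + w, by rw [map_add, hv], ?_, ?_⟩
      · have := nrm_add_le e ρ v.1 w.1
        push_cast
        simp only [Prod.fst_add]
        linarith [hw.1]
      · have := nrm_add_le e ρ v.2 w.2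
        push_cast
        simp only [Prod.snd_add]
        linarith [hw.2]
  obtain ⟨v, hv, hv1, hv2⟩ := hlift j (0, 1) (by rw [hj2]; exact Finset.mem_univ _)
  rw [hγapp] at hv
  have hva := congrArg Prod.fst hv
  have hvb := congrArg Prod.snd hv
  simp only at hva hvb
  have hbound : (j : ℝ) * X ≤ 3 * N ^ 2 * m * Y := by
    calc (j : ℝ) * X ≤ (3 * N * m) * X := mul_le_mul_of_nonneg_right hjm hX0
      _ = 3 * N ^ 2 * m * Y := by rw [hX]; ring
  refine ⟨v.1, v.2, ?_, ?_, hv1.trans hbound, hv2.trans hbound⟩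
  · rw [← map_one mk1] at hvb
    have := (mk_eq_iff π 1 _ _).1 hvb
    rwa [pow_one] at this
  · rw [← map_zero mk] at hva
    have := (mk_eq_iff π n _ _).1 hva
    rw [sub_zero] at this
    have h4 : v.2 * dig π n a - v.1 = -(v.1 - v.2 * α) := by rw [hα]; ring
    rw [h4]
    exact dvd_neg.2 this

end Pool.Agent.H678R2.PiAdic
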