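import Mathlib

/-! Covering a finite abelian group by few sums of a symmetric generating set. -/

namespace Pool.Agent.H678R2.PiAdic

open Finset
open scoped Pointwise

variable {G : Type*} [AddCommGroup G] [DecidableEq G]

/-- `j`-fold sumset of `A` -/
def iter (A : Finset G) : ℕ → Finset G
  | 0 => {0}
  | j + 1 => iter A j + A

theorem iter_add (A : Finset G) (i j : ℕ) : iter A (i + j) = iter A i + iter A j := by
  induction j with
  | zero =>
    show iter A i = iter A i + {0}
    ext x
    simp [Finset.mem_add]
  | succ j ih =>
    show iter A (i + j) + A = iter A i + (iter A j + A)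
    rw [ih, add_assoc]

theorem zero_mem_iter {A : Finset G} (h0 : (0 : G) ∈ A) (j : ℕ) : (0 : G) ∈ iter A j := by
  induction j with
  | zero => simp [iter]
  | succ j ih =>
    show (0 : G) ∈ iter A j + A
    rw [Finset.mem_add]
    exact ⟨0, ih, 0, h0, by simp⟩

theorem iter_mono {A : Finset G} (h0 : (0 : G) ∈ A) {i j : ℕ} (hij : i ≤ j) :
    iter A i ⊆ iter A j := by
  obtain ⟨k, rfl⟩ := Nat.exists_eq_add_of_le hij
  rw [iter_add]
  intro x hx
  rw [Finset.mem_add]
  exact ⟨x, hx, 0, zero_mem_iter h0 k, by simp⟩

theorem exists_iter_eq_univ [Fintype G] {A : Finset G} (h0 : (0 : G) ∈ A)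
    (hneg : ∀ a ∈ A, -a ∈ A) (hgen : AddSubgroup.closure (A : Set G) = ⊤) :
    ∃ j : ℕ, j * A.card ≤ 3 * Fintype.card G ∧ iter A j = Finset.univ := by
  have hAmem : ∀ {j : ℕ} {x a : G}, x ∈ iter A j → a ∈ A → x + a ∈ iter A (j + 1) := by
    intro j x a hx ha
    show x + a ∈ iter A j + A
    rw [Finset.mem_add]
    exact ⟨x, hx, a, ha, rfl⟩
  have step : ∀ j : ℕ, iter A j = Finset.univ ∨ ∃ x ∈ iter A (j + 1), x ∉ iter A j := by
    intro j
    by_cases h : ∃ x ∈ iter A (j + 1), x ∉ iter A j
    · exact Or.inr h
    · left
      push Not at h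
      rw [Finset.eq_univ_iff_forall]
      intro x
      have hx : x ∈ AddSubgroup.closure (A : Set G) := by rw [hgen]; trivial
      have : ∀ y ∈ iter A j, y + x ∈ iter A j := by
        induction hx using AddSubgroup.closure_induction with
        | mem a ha => intro y hy; exact h _ (hAmem hy ha)
        | zero => intro y hy; simpa using hy
        | add a b _ _ iha ihb =>
          intro y hy
          rw [← add_assoc]
          exact ihb _ (iha _ hy)
        | neg a _ iha =>
          intro y hy
          -- translation by `a` is an injection of the finite set into itself, hence a bijection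
          have hinj : Set.InjOn (fun y => y + a) (iter A j : Set G) := by
            intro u _ v _ huv
            exact add_right_cancel huv
          have himg : (iter A j).image (fun y => y + a) = iter A j := by
            apply Finset.eq_of_subset_of_card_le
            · intro z hz
              rw [Finset.mem_image] at hz
              obtain ⟨w, hw, rfl⟩ := hz
              exact iha _ hw
            · rw [Finset.card_image_of_injOn hinj]
          rw [← himg, Finset.mem_image] at hy
          obtain ⟨w, hw, hwy⟩ := hy
          have : y + -a = w := by rw [← hwy]; simp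
          rw [this]
          exact hw
      have h1 := this 0 (zero_mem_iter h0 j)
      simpa using h1
  have hex : ∃ j, iter A j = Finset.univ := by
    by_contra hcon
    push Not at hcon
    have hgrow : ∀ j : ℕ, j + 1 ≤ (iter A j).card := by
      intro j
      induction j with
      | zero => simp [iter]
      | succ j ih =>
        rcases step j with h | ⟨x, hx, hx'⟩
        · exact absurd h (hcon j)
        · have : (iter A j).card < (iter A (j + 1)).card := by
            apply Finset.card_lt_card
            rw [Finset.ssubset_iff_of_subset (iter_mono h0 (Nat.le_succ j))]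
            exact ⟨x, hx, hx'⟩
          omega
    have h1 := hgrow (Fintype.card G)
    have h2 := Finset.card_le_univ (iter A (Fintype.card G))
    omega
  classical
  set j0 := Nat.find hex with hj0
  have hj0spec : iter A j0 = Finset.univ := Nat.find_spec hex
  have hmin : ∀ i, i < j0 → iter A i ≠ Finset.univ := fun i hi => Nat.find_min hex hi
  have hx : ∀ i : ℕ, ∃ x : G, i < j0 → x ∈ iter A (i + 1) ∧ x ∉ iter A i := by
    intro i
    by_cases hi : i < j0
    · rcases step i with h | ⟨x, hx, hx'⟩
      · exact absurd h (hmin i hi)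
      · exact ⟨x, fun _ => ⟨hx, hx'⟩⟩
    · exact ⟨0, fun h => absurd h hi⟩
  choose x hxs using hx
  refine ⟨j0, ?_, hj0spec⟩
  set I := Finset.range ((j0 + 2) / 3) with hI
  have hImem : ∀ i ∈ I, 3 * i < j0 := by
    intro i hi
    rw [hI, Finset.mem_range] at hi
    omega
  have hkey : ∀ i ∈ I, ∀ i' ∈ I, i < i' → ∀ a ∈ A, ∀ a' ∈ A, x (3 * i') + a' ≠ x (3 * i) + a := by
    intro i hi i' hi' hlt a ha a' ha' heq
    have h1 := (hxs (3 * i) (hImem i hi)).1
    have h2 := (hxs (3 * i') (hImem i' hi')).2
    apply h2
    have h3 : x (3 * i') = (x (3 * i) + a) + -a' := by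
      rw [← heq]; simp
    rw [h3]
    have h4 := hAmem (hAmem h1 ha) (hneg a' ha')
    exact iter_mono h0 (by omega) h4
  have hcard : (I ×ˢ A).card ≤ (Finset.univ : Finset G).card := by
    apply Finset.card_le_card_of_injOn (fun p => x (3 * p.1) + p.2) (fun _ _ => Finset.mem_univ _)
    rintro ⟨i, a⟩ hia ⟨i', a'⟩ hia' heq
    simp only [Finset.coe_product, Set.mem_prod, Finset.mem_coe] at hia hia'
    simp only at heq
    rcases lt_trichotomy i i' with hlt | heq' | hgt
    · exact absurd heq.symm (hkey i hia.1 i' hia'.1 hlt a hia.2 a' hia'.2)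
    · subst heq'
      rw [add_right_inj] at heq
      rw [heq]
    · exact absurd heq (hkey i' hia'.1 i hia.1 hgt a' hia'.2 a hia.2)
  rw [Finset.card_product, hI, Finset.card_range, Finset.card_univ] at hcard
  have h5 : j0 ≤ 3 * ((j0 + 2) / 3) := by omega
  calc j0 * A.card ≤ 3 * ((j0 + 2) / 3) * A.card := Nat.mul_le_mul_right _ h5
    _ = 3 * ((j0 + 2) / 3 * A.card) := by ring
    _ ≤ 3 * Fintype.card G := Nat.mul_le_mul_left _ hcard

end Pool.Agent.H678R2.PiAdic
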