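import Mathlib

/-! A scaled sup norm on `ℤ[π]`, `π ^ r = ± N`. -/

namespace Pool.Agent.H678R2.PiAdic

open Finset Module

section nrm

variable {R : Type*} [CommRing R] {r : ℕ} (e : Basis (Fin r) ℤ R) (ρ : ℝ)

/-- scaled sup norm: `max_i |u_i| ρ^i` for `x = ∑ u_i e_i` -/
noncomputable def nrm (x : R) : ℝ := ‖fun i : Fin r => ((e.repr x i : ℤ) : ℝ) * ρ ^ (i : ℕ)‖

theorem nrm_nonneg (x : R) : 0 ≤ nrm e ρ x := norm_nonneg _

theorem nrm_zero : nrm e ρ (0 : R) = 0 := by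
  unfold nrm
  simp only [map_zero, Finsupp.coe_zero, Pi.zero_apply, Int.cast_zero, zero_mul]
  exact norm_zero

theorem nrm_add_le (x y : R) : nrm e ρ (x + y) ≤ nrm e ρ x + nrm e ρ y := by
  unfold nrm
  refine le_trans (le_of_eq ?_) (norm_add_le _ _)
  congr 1
  funext i
  simp only [map_add, Finsupp.coe_add, Pi.add_apply, Int.cast_add]
  ring

theorem nrm_neg (x : R) : nrm e ρ (-x) = nrm e ρ x := by
  unfold nrm
  rw [← norm_neg]
  congr 1
  funext i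
  simp

theorem nrm_sub_le (x y : R) : nrm e ρ (x - y) ≤ nrm e ρ x + nrm e ρ y := by
  rw [sub_eq_add_neg]
  refine (nrm_add_le e ρ x (-y)).trans ?_
  rw [nrm_neg]

theorem nrm_zsmul (k : ℤ) (x : R) : nrm e ρ (k • x) = |(k : ℝ)| * nrm e ρ x := by
  unfold nrm
  have h : (fun i : Fin r => ((e.repr (k • x) i : ℤ) : ℝ) * ρ ^ (i : ℕ))
      = (k : ℝ) • (fun i : Fin r => ((e.repr x i : ℤ) : ℝ) * ρ ^ (i : ℕ)) := by
    funext i
    simp only [map_zsmul, Finsupp.coe_smul, Pi.smul_apply, smul_eq_mul]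
    push_cast
    ring
  rw [h, norm_smul, Real.norm_eq_abs]

theorem nrm_sum_le {ι : Type*} (s : Finset ι) (f : ι → R) :
    nrm e ρ (∑ i ∈ s, f i) ≤ ∑ i ∈ s, nrm e ρ (f i) := by
  classical
  induction s using Finset.induction_on with
  | empty => simp [nrm_zero]
  | insert a s ha ih =>
    rw [Finset.sum_insert ha, Finset.sum_insert ha]
    exact (nrm_add_le e ρ _ _).trans (by linarith)

theorem coord_le_nrm (hρ : 0 ≤ ρ) (x : R) (i : Fin r) :
    |((e.repr x i : ℤ) : ℝ)| * ρ ^ (i : ℕ) ≤ nrm e ρ x := by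
  have h := norm_le_pi_norm (fun i : Fin r => ((e.repr x i : ℤ) : ℝ) * ρ ^ (i : ℕ)) i
  simp only [Real.norm_eq_abs, abs_mul, abs_of_nonneg (pow_nonneg hρ _)] at h
  exact h

theorem nrm_le_iff (hρ : 0 ≤ ρ) (x : R) {X : ℝ} (hX : 0 ≤ X) :
    nrm e ρ x ≤ X ↔ ∀ i : Fin r, |((e.repr x i : ℤ) : ℝ)| * ρ ^ (i : ℕ) ≤ X := by
  unfold nrm
  rw [pi_norm_le_iff_of_nonneg hX]
  apply forall_congr'
  intro i
  rw [Real.norm_eq_abs, abs_mul, abs_of_nonneg (pow_nonneg hρ _)]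

theorem one_le_nrm (hρ : 1 ≤ ρ) {x : R} (hx : x ≠ 0) : 1 ≤ nrm e ρ x := by
  have h1 : ∃ i, e.repr x i ≠ 0 := by
    by_contra hcon
    push Not at hcon
    apply hx
    have : e.repr x = 0 := by
      ext i; simpa using hcon i
    simpa using this
  obtain ⟨i, hi⟩ := h1
  have h2 := coord_le_nrm e ρ (by linarith) x i
  have h3 : (1 : ℝ) ≤ |((e.repr x i : ℤ) : ℝ)| := by
    have := Int.one_le_abs hi
    exact_mod_cast this
  have h4 : (1 : ℝ) ≤ ρ ^ (i : ℕ) := one_le_pow₀ hρ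
  nlinarith

/-- the ball of radius `X` -/
noncomputable def ball (X : ℝ) : Finset R :=
  (Fintype.piFinset (fun i : Fin r => Finset.Icc (-⌊X / ρ ^ (i : ℕ)⌋) ⌊X / ρ ^ (i : ℕ)⌋)).map
    e.equivFun.symm.toEquiv.toEmbedding

theorem mem_ball (hρ : 0 < ρ) {X : ℝ} (hX : 0 ≤ X) (x : R) : x ∈ ball e ρ X ↔ nrm e ρ x ≤ X := by
  rw [nrm_le_iff e ρ hρ.le x hX]
  unfold ball
  rw [Finset.mem_map]
  constructor
  · rintro ⟨u, hu, rfl⟩ i
    rw [Fintype.mem_piFinset] at hu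
    have h1 := hu i
    rw [Finset.mem_Icc, ← abs_le, Int.le_floor] at h1
    have hpos : 0 < ρ ^ (i : ℕ) := pow_pos hρ _
    rw [le_div_iff₀ hpos] at h1
    have h2 : e.repr ((e.equivFun.symm.toEquiv.toEmbedding) u) i = u i := by
      show e.repr (e.equivFun.symm u) i = u i
      rw [← Basis.equivFun_apply, LinearEquiv.apply_symm_apply]
    rw [h2]
    push_cast at h1
    exact h1
  · intro h
    refine ⟨e.equivFun x, ?_, ?_⟩
    · rw [Fintype.mem_piFinset]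
      intro i
      rw [Finset.mem_Icc, ← abs_le, Int.le_floor]
      have hpos : 0 < ρ ^ (i : ℕ) := pow_pos hρ _
      rw [le_div_iff₀ hpos]
      have := h i
      rw [Basis.equivFun_apply]
      push_cast
      exact this
    · exact e.equivFun.symm_apply_apply x

theorem card_ball (hρ : 0 < ρ) {X : ℝ} (hX : 0 ≤ X) :
    ((ball e ρ X).card : ℝ) = ∏ i : Fin r, (2 * (⌊X / ρ ^ (i : ℕ)⌋ : ℝ) + 1) := by
  unfold ball
  rw [Finset.card_map, Fintype.card_piFinset]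
  push_cast
  apply Finset.prod_congr rfl
  intro i _
  rw [Int.card_Icc]
  have h0 : 0 ≤ ⌊X / ρ ^ (i : ℕ)⌋ := Int.floor_nonneg.2 (div_nonneg hX (pow_nonneg hρ.le _))
  have h1 : ((⌊X / ρ ^ (i : ℕ)⌋ + 1 - -⌊X / ρ ^ (i : ℕ)⌋).toNat : ℤ)
      = 2 * ⌊X / ρ ^ (i : ℕ)⌋ + 1 := by
    rw [Int.toNat_of_nonneg (by linarith)]
    ring
  exact_mod_cast h1

theorem card_ball_le (hρ : 1 ≤ ρ) {X : ℝ} (hX : 1 ≤ X) :
    ((ball e ρ X).card : ℝ) ≤ (3 * X) ^ r := by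
  rw [card_ball e ρ (by linarith) (by linarith)]
  calc ∏ i : Fin r, (2 * (⌊X / ρ ^ (i : ℕ)⌋ : ℝ) + 1) ≤ ∏ i : Fin r, (3 * X) := by
        apply Finset.prod_le_prod
        · intro i _
          have h0 : 0 ≤ ⌊X / ρ ^ (i : ℕ)⌋ :=
            Int.floor_nonneg.2 (div_nonneg (by linarith) (pow_nonneg (by linarith) _))
          have : (0 : ℝ) ≤ (⌊X / ρ ^ (i : ℕ)⌋ : ℝ) := by exact_mod_cast h0
          linarith
        · intro i _
          have h1 : (⌊X / ρ ^ (i : ℕ)⌋ : ℝ) ≤ X / ρ ^ (i : ℕ) := Int.floor_le _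
          have h2 : X / ρ ^ (i : ℕ) ≤ X := div_le_self (by linarith) (one_le_pow₀ hρ)
          linarith
    _ = (3 * X) ^ r := by rw [Finset.prod_const, Finset.card_univ, Fintype.card_fin]

theorem le_card_ball (hρ : 1 ≤ ρ) {K : ℝ} (hK : ∀ i : Fin r, ρ ^ (i : ℕ) ≤ K) {X : ℝ}
    (hX : 0 ≤ X) : X ^ r ≤ (ball e ρ X).card * K ^ r := by
  rw [card_ball e ρ (by linarith) hX]
  have h1 : X ^ r = ∏ i : Fin r, X := by
    rw [Finset.prod_const, Finset.card_univ, Fintype.card_fin]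
  have h2 : K ^ r = ∏ i : Fin r, K := by
    rw [Finset.prod_const, Finset.card_univ, Fintype.card_fin]
  rw [h1, h2, ← Finset.prod_mul_distrib]
  apply Finset.prod_le_prod
  · intro i _; exact hX
  · intro i _
    have hpos : 0 < ρ ^ (i : ℕ) := pow_pos (by linarith) _
    have h0 : 0 ≤ ⌊X / ρ ^ (i : ℕ)⌋ := Int.floor_nonneg.2 (div_nonneg hX hpos.le)
    have h0' : (0 : ℝ) ≤ (⌊X / ρ ^ (i : ℕ)⌋ : ℝ) := by exact_mod_cast h0
    have h3 : X / ρ ^ (i : ℕ) < ⌊X / ρ ^ (i : ℕ)⌋ + 1 := Int.lt_floor_add_one _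
    rw [div_lt_iff₀ hpos] at h3
    have h4 := hK i
    have h5 : ((⌊X / ρ ^ (i : ℕ)⌋ : ℝ) + 1) * ρ ^ (i : ℕ) ≤ ((⌊X / ρ ^ (i : ℕ)⌋ : ℝ) + 1) * K :=
      mul_le_mul_of_nonneg_left h4 (by linarith)
    nlinarith [hpos.le.trans h4]

end nrm

section mul

variable {R : Type*} [CommRing R] {s : ℕ} (e : Basis (Fin (s + 1)) ℤ R) (ρ : ℝ) (π : R) (N : ℕ)
  (ε : ℤ)

/-- coordinates of `π x` -/
theorem repr_pi_mul (he : ∀ i, e i = π ^ (i : ℕ)) (hπ : π ^ (s + 1) = ((ε * N : ℤ) : R)) (x : R) :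
    (e.repr (π * x) 0 = ε * N * e.repr x (Fin.last s)) ∧
      ∀ i : Fin s, e.repr (π * x) i.succ = e.repr x i.castSucc := by
  set v : Fin (s + 1) → ℤ := Fin.cons (ε * N * e.repr x (Fin.last s))
    (fun i => e.repr x i.castSucc) with hv
  have h1 : π * x = ∑ i, v i • e i := by
    conv_lhs => rw [← e.sum_repr x, Finset.mul_sum]
    rw [Fin.sum_univ_castSucc, Fin.sum_univ_succ, add_comm]
    congr 1
    · rw [hv, Fin.cons_zero, he, he]
      simp only [Fin.val_last, Fin.val_zero, pow_zero]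
      rw [mul_smul_comm, ← pow_succ', hπ, zsmul_eq_mul, zsmul_eq_mul, mul_one]
      push_cast
      ring
    · apply Finset.sum_congr rfl
      intro i _
      rw [hv, Fin.cons_succ, he, he, mul_smul_comm]
      congr 1
      simp only [Fin.val_castSucc, Fin.val_succ]
      rw [← pow_succ']
  have h2 : (e.repr (π * x) : Fin (s + 1) → ℤ) = v := by
    rw [h1]
    exact e.repr_sum_self v
  constructor
  · rw [h2, hv, Fin.cons_zero]
  · intro i
    rw [h2, hv, Fin.cons_succ]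

theorem nrm_pi_mul (hρ : 1 ≤ ρ) (hρN : ρ ^ (s + 1) = N) (hε : |ε| = 1)
    (he : ∀ i, e i = π ^ (i : ℕ)) (hπ : π ^ (s + 1) = ((ε * N : ℤ) : R)) (x : R) :
    nrm e ρ (π * x) = ρ * nrm e ρ x := by
  have hρ0 : (0 : ℝ) ≤ ρ := by linarith
  obtain ⟨h0, h1⟩ := repr_pi_mul e π N ε he hπ x
  have hcoord0 : |((e.repr (π * x) 0 : ℤ) : ℝ)| = ρ * (|((e.repr x (Fin.last s) : ℤ) : ℝ)| * ρ ^ s) := by
    rw [h0]
    push_cast
    rw [abs_mul, abs_mul]
    have : |(ε : ℝ)| = 1 := by exact_mod_cast hε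
    rw [this, ← hρN, abs_of_nonneg (pow_nonneg hρ0 _)]
    ring
  apply le_antisymm
  · rw [nrm_le_iff e ρ hρ0 _ (mul_nonneg hρ0 (nrm_nonneg e ρ x))]
    intro i
    refine Fin.cases ?_ ?_ i
    · simp only [Fin.val_zero, pow_zero, mul_one]
      rw [hcoord0]
      apply mul_le_mul_of_nonneg_left _ hρ0
      have := coord_le_nrm e ρ hρ0 x (Fin.last s)
      simpa using this
    · intro j
      rw [h1 j]
      have := coord_le_nrm e ρ hρ0 x j.castSucc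
      simp only [Fin.val_castSucc, Fin.val_succ] at this ⊢
      calc _ = ρ * (|((e.repr x j.castSucc : ℤ) : ℝ)| * ρ ^ (j : ℕ)) := by rw [pow_succ]; ring
        _ ≤ ρ * nrm e ρ x := mul_le_mul_of_nonneg_left this hρ0
  · have hρpos : 0 < ρ := by linarith
    rw [← le_div_iff₀' hρpos]
    rw [nrm_le_iff e ρ hρ0 _ (div_nonneg (nrm_nonneg e ρ _) hρ0)]
    intro i
    rw [le_div_iff₀' hρpos]
    refine Fin.lastCases ?_ ?_ i
    · have := coord_le_nrm e ρ hρ0 (π * x) 0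
      simp only [Fin.val_zero, pow_zero, mul_one] at this
      rw [hcoord0] at this
      simpa using this
    · intro j
      have := coord_le_nrm e ρ hρ0 (π * x) j.succ
      rw [h1 j] at this
      simp only [Fin.val_castSucc, Fin.val_succ] at this ⊢
      calc _ = |((e.repr x j.castSucc : ℤ) : ℝ)| * ρ ^ ((j : ℕ) + 1) := by rw [pow_succ]; ring
        _ ≤ _ := this

theorem nrm_pi_pow_mul (hρ : 1 ≤ ρ) (hρN : ρ ^ (s + 1) = N) (hε : |ε| = 1)
    (he : ∀ i, e i = π ^ (i : ℕ)) (hπ : π ^ (s + 1) = ((ε * N : ℤ) : R)) (k : ℕ) (x : R) :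
    nrm e ρ (π ^ k * x) = ρ ^ k * nrm e ρ x := by
  induction k with
  | zero => simp
  | succ k ih =>
    rw [pow_succ', mul_assoc, nrm_pi_mul e ρ π N ε hρ hρN hε he hπ, ih, pow_succ']
    ring

theorem nrm_mul_le (hρ : 1 ≤ ρ) (hρN : ρ ^ (s + 1) = N) (hε : |ε| = 1)
    (he : ∀ i, e i = π ^ (i : ℕ)) (hπ : π ^ (s + 1) = ((ε * N : ℤ) : R)) (x y : R) :
    nrm e ρ (x * y) ≤ (s + 1) * nrm e ρ x * nrm e ρ y := by
  have hρ0 : (0 : ℝ) ≤ ρ := by linarith
  have h1 : x * y = ∑ i, e.repr x i • (π ^ (i : ℕ) * y) := by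
    conv_lhs => rw [← e.sum_repr x, Finset.sum_mul]
    apply Finset.sum_congr rfl
    intro i _
    rw [he, smul_mul_assoc]
  rw [h1]
  refine (nrm_sum_le e ρ _ _).trans ?_
  calc ∑ i, nrm e ρ (e.repr x i • (π ^ (i : ℕ) * y))
      ≤ ∑ i : Fin (s + 1), nrm e ρ x * nrm e ρ y := by
        apply Finset.sum_le_sum
        intro i _
        rw [nrm_zsmul, nrm_pi_pow_mul e ρ π N ε hρ hρN hε he hπ, ← mul_assoc]
        exact mul_le_mul_of_nonneg_right (coord_le_nrm e ρ hρ0 x i) (nrm_nonneg e ρ y)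
    _ = (s + 1) * nrm e ρ x * nrm e ρ y := by
        rw [Finset.sum_const, Finset.card_univ, Fintype.card_fin, nsmul_eq_mul]
        push_cast
        ring

end mul

end Pool.Agent.H678R2.PiAdic
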