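import Pool.Agent.H678R2.PiAdic.Norm
import Pool.Agent.H678R2.PiAdic.Growth

/-! Digits and counting in `ℤ[π] / (π^n)`. -/

namespace Pool.Agent.H678R2.PiAdic

open Finset Module

variable {R : Type*} [CommRing R] {s : ℕ} (e : Basis (Fin (s + 1)) ℤ R) (ρ : ℝ) (π : R) (N : ℕ)
  (ε : ℤ)

/-- the standing hypotheses on `R = ℤ[π]` -/
structure Hyp : Prop where
  N2 : 2 ≤ N
  hρ : 1 ≤ ρ
  hρN : ρ ^ (s + 1) = N
  hε : |ε| = 1
  he : ∀ i, e i = π ^ (i : ℕ)
  hπ : π ^ (s + 1) = ((ε * N : ℤ) : R)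

variable {e ρ π N ε}

theorem Hyp.e_zero (H : Hyp e ρ π N ε) : e 0 = 1 := by rw [H.he]; simp

theorem Hyp.repr_int (H : Hyp e ρ π N ε) (m : ℤ) : e.repr (m : R) 0 = m := by
  have : (m : R) = m • e 0 := by rw [H.e_zero]; simp
  rw [this, map_zsmul, Basis.repr_self]
  simp

theorem Hyp.eps_ne (H : Hyp e ρ π N ε) : ε ≠ 0 := by
  intro h
  have := H.hε
  rw [h] at this
  simp at this

theorem Hyp.pi_ne (H : Hyp e ρ π N ε) : π ≠ 0 := by
  intro h
  have h1 := H.hπ
  rw [h, zero_pow (Nat.succ_ne_zero _)] at h1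
  have h2 := H.repr_int (ε * N)
  rw [← h1] at h2
  simp at h2
  have h3 := H.N2
  have h4 := H.eps_ne
  rcases h2 with h2 | h2
  · exact h4 h2
  · omega

theorem Hyp.int_dvd (H : Hyp e ρ π N ε) {m : ℤ} (h : π ∣ (m : R)) : (N : ℤ) ∣ m := by
  obtain ⟨y, hy⟩ := h
  have h1 := (repr_pi_mul e π N ε H.he H.hπ y).1
  rw [← hy, H.repr_int] at h1
  rw [h1]
  exact ⟨ε * e.repr y (Fin.last s), by ring⟩

theorem Hyp.pi_dvd_N (H : Hyp e ρ π N ε) : π ∣ ((N : ℤ) : R) := by
  have h1 : ε * ε = 1 := by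
    have := H.hε
    rcases abs_eq (zero_le_one) |>.1 this with h | h <;> rw [h] <;> norm_num
  refine ⟨(ε : R) * π ^ s, ?_⟩
  have h2 : π * ((ε : R) * π ^ s) = (ε : R) * π ^ (s + 1) := by rw [pow_succ]; ring
  rw [h2, H.hπ]
  have h3 : ((ε * (ε * N) : ℤ) : R) = ((N : ℤ) : R) := by
    rw [← mul_assoc, h1, one_mul]
  rw [← h3]
  push_cast
  ring

/-- every element is congruent to a digit modulo `π` -/
theorem Hyp.exists_digit (H : Hyp e ρ π N ε) (x : R) : ∃ d : Fin N, π ∣ x - ((d : ℕ) : R) := by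
  have hN : (0 : ℤ) < N := by have := H.N2; omega
  have h1 : π ∣ x - ((e.repr x 0 : ℤ) : R) := by
    have h3 : x = ((e.repr x 0 : ℤ) : R) + ∑ i : Fin s, e.repr x i.succ • e i.succ := by
      conv_lhs => rw [← e.sum_repr x]
      rw [Fin.sum_univ_succ, H.e_zero, zsmul_eq_mul, mul_one]
    have h2 : x - ((e.repr x 0 : ℤ) : R) = ∑ i : Fin s, e.repr x i.succ • e i.succ := by
      rw [sub_eq_iff_eq_add']
      exact h3
    rw [h2]
    apply Finset.dvd_sum
    intro i _
    rw [H.he, zsmul_eq_mul]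
    apply Dvd.dvd.mul_left
    simp only [Fin.val_succ]
    exact dvd_pow_self π (Nat.succ_ne_zero _)
  set u : ℤ := e.repr x 0 with hu
  have h0 : 0 ≤ u % N := Int.emod_nonneg _ hN.ne'
  have h2 : u % N < N := Int.emod_lt_of_pos _ hN
  refine ⟨⟨(u % N).toNat, by omega⟩, ?_⟩
  have h3 : ((((u % N).toNat : ℕ) : ℤ) : R) = ((u % N : ℤ) : R) := by
    rw [Int.toNat_of_nonneg h0]
  simp only
  rw [← Int.cast_natCast, h3]
  have h4 : x - ((u % N : ℤ) : R) = (x - (u : R)) + ((N : ℤ) : R) * ((u / N : ℤ) : R) := by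
    have : (u : R) = ((u % N : ℤ) : R) + ((N : ℤ) : R) * ((u / N : ℤ) : R) := by
      conv_lhs => rw [← Int.emod_add_mul_ediv u N]
      push_cast
      rfl
    rw [this]
    ring
  rw [h4]
  exact dvd_add h1 (Dvd.dvd.mul_right H.pi_dvd_N _)

/-- the element with the given digits -/
def dig (π : R) {N : ℕ} (n : ℕ) (a : Fin n → Fin N) : R := ∑ i : Fin n, (((a i : ℕ)) : R) * π ^ (i : ℕ)

theorem dig_succ (π : R) {N : ℕ} (n : ℕ) (a : Fin (n + 1) → Fin N) :
    dig π (n + 1) a = ((a 0 : ℕ) : R) + π * dig π n (fun i => a i.succ) := by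
  unfold dig
  rw [Fin.sum_univ_succ, Finset.mul_sum]
  congr 1
  · simp
  · apply Finset.sum_congr rfl
    intro i _
    simp only [Fin.val_succ]
    rw [pow_succ]
    ring

theorem Hyp.exists_dig (H : Hyp e ρ π N ε) (n : ℕ) :
    ∀ x : R, ∃ a : Fin n → Fin N, π ^ n ∣ x - dig π n a := by
  induction n with
  | zero => intro x; exact ⟨fun i => i.elim0, by simp⟩
  | succ n ih =>
    intro x
    obtain ⟨d, x', hx'⟩ := H.exists_digit x
    obtain ⟨a', ha'⟩ := ih x'
    refine ⟨Fin.cons d a', ?_⟩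
    rw [dig_succ]
    simp only [Fin.cons_zero, Fin.cons_succ]
    have e1 : x - (((d : ℕ) : R) + π * dig π n a') = π * (x' - dig π n a') := by
      rw [mul_sub, ← hx']; ring
    rw [e1, pow_succ']
    exact mul_dvd_mul_left π ha'

theorem Hyp.dig_inj [IsDomain R] (H : Hyp e ρ π N ε) (n : ℕ) :
    ∀ a b : Fin n → Fin N, π ^ n ∣ dig π n a - dig π n b → a = b := by
  induction n with
  | zero => intro a b _; funext i; exact i.elim0
  | succ n ih =>
    intro a b h
    rw [dig_succ, dig_succ] at h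
    have e1 : ((a 0 : ℕ) : R) + π * dig π n (fun i => a i.succ)
        - (((b 0 : ℕ) : R) + π * dig π n (fun i => b i.succ))
        = ((((a 0 : ℕ) : ℤ) - ((b 0 : ℕ) : ℤ) : ℤ) : R)
          + π * (dig π n (fun i => a i.succ) - dig π n (fun i => b i.succ)) := by
      push_cast
      ring
    rw [e1] at h
    have h1 : π ∣ ((((a 0 : ℕ) : ℤ) - ((b 0 : ℕ) : ℤ) : ℤ) : R) := by
      have h2 : π ∣ π ^ (n + 1) := dvd_pow_self π (Nat.succ_ne_zero _)
      exact (dvd_add_left (Dvd.intro _ rfl)).1 (h2.trans h)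
    have h3 := H.int_dvd h1
    have h4 : a 0 = b 0 := by
      have ha := (a 0).2
      have hb := (b 0).2
      obtain ⟨k, hk⟩ := h3
      have : k = 0 := by
        by_contra hk0
        rcases lt_or_gt_of_ne hk0 with h | h
        · nlinarith
        · nlinarith
      rw [this, mul_zero] at hk
      apply Fin.ext
      omega
    rw [h4, sub_self, Int.cast_zero, zero_add, pow_succ'] at h
    have h5 := (mul_dvd_mul_iff_left H.pi_ne).1 h
    have h6 := ih _ _ h5
    funext i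
    refine Fin.cases h4 (fun j => ?_) i
    exact congrFun h6 j

/-- the quotient ring -/
abbrev Rn (π : R) (n : ℕ) : Type _ := R ⧸ Ideal.span {π ^ n}

theorem mk_eq_iff (π : R) (n : ℕ) (x y : R) :
    (Ideal.Quotient.mk (Ideal.span {π ^ n}) x = Ideal.Quotient.mk (Ideal.span {π ^ n}) y)
      ↔ π ^ n ∣ x - y := by
  rw [Ideal.Quotient.eq, Ideal.mem_span_singleton]

/-- digits parametrise the quotient -/
noncomputable def Hyp.equiv [IsDomain R] (H : Hyp e ρ π N ε) (n : ℕ) :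
    (Fin n → Fin N) ≃ Rn π n :=
  Equiv.ofBijective (fun a => Ideal.Quotient.mk (Ideal.span {π ^ n}) (dig π n a)) (by
    constructor
    · intro a b hab
      exact H.dig_inj n a b ((mk_eq_iff π n _ _).1 hab)
    · intro x
      obtain ⟨x, rfl⟩ := Ideal.Quotient.mk_surjective x
      obtain ⟨a, ha⟩ := H.exists_dig n x
      exact ⟨a, ((mk_eq_iff π n _ _).2 ha).symm⟩)

theorem Hyp.finite_Rn [IsDomain R] (H : Hyp e ρ π N ε) (n : ℕ) : Finite (Rn π n) :=
  Finite.of_equiv _ (H.equiv n)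

theorem Hyp.card_Rn [IsDomain R] (H : Hyp e ρ π N ε) (n : ℕ) : Nat.card (Rn π n) = N ^ n := by
  rw [← Nat.card_congr (H.equiv n)]
  simp

/-- every element is congruent modulo `g ≠ 0` to an element of norm `≤ (s+1) N |g|` -/
theorem Hyp.exists_small [IsDomain R] (H : Hyp e ρ π N ε) {g : R} (hg : g ≠ 0) (x : R) :
    ∃ t : R, g ∣ x - t ∧ nrm e ρ t ≤ (s + 1) * N * nrm e ρ g := by
  have hρ0 : (0 : ℝ) ≤ ρ := by linarith [H.hρ]
  have hfin : Module.Finite ℤ R := Module.Finite.of_basis e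
  have hint : IsIntegral ℤ g := Algebra.IsIntegral.isIntegral g
  have hne := Ideal.comap_ne_bot_of_integral_mem (R := ℤ) (I := Ideal.span {g}) hg
    (Ideal.mem_span_singleton_self g) hint
  obtain ⟨D, hD, hD0⟩ := Submodule.exists_mem_ne_zero_of_ne_bot hne
  rw [Ideal.mem_comap, Ideal.mem_span_singleton] at hD
  obtain ⟨g', hg'⟩ := hD
  have hDR : ((D : ℤ) : R) = g * g' := by simpa using hg'
  set y := g' * x with hy
  set k : R := ∑ i, (e.repr y i / D) • e i with hk
  set c : R := ∑ i, (e.repr y i % D) • e i with hc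
  have hyk : y = D • k + c := by
    conv_lhs => rw [← e.sum_repr y]
    rw [hk, hc, Finset.smul_sum, ← Finset.sum_add_distrib]
    apply Finset.sum_congr rfl
    intro i _
    rw [smul_smul, ← add_smul]
    congr 1
    have := Int.emod_add_mul_ediv (e.repr y i) D
    linarith
  refine ⟨x - g * k, ⟨k, by ring⟩, ?_⟩
  have h1 : D • (x - g * k) = g * c := by
    have h2 : (D : R) * x = g * y := by rw [hDR, hy]; ring
    rw [zsmul_eq_mul, mul_sub, h2, hyk, zsmul_eq_mul]
    ring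
  have h2 := nrm_zsmul e ρ D (x - g * k)
  rw [h1] at h2
  have hDpos : (0 : ℝ) < |(D : ℝ)| := by
    rw [abs_pos]; exact_mod_cast hD0
  have h3 : nrm e ρ (g * c) ≤ |(D : ℝ)| * ((s + 1) * N * nrm e ρ g) := by
    have h4 : g * c = ∑ i, (e.repr y i % D) • (π ^ (i : ℕ) * g) := by
      rw [hc, Finset.mul_sum]
      apply Finset.sum_congr rfl
      intro i _
      rw [mul_smul_comm, H.he, mul_comm]
    rw [h4]
    refine (nrm_sum_le e ρ _ _).trans ?_
    calc ∑ i, nrm e ρ ((e.repr y i % D) • (π ^ (i : ℕ) * g))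
        ≤ ∑ i : Fin (s + 1), |(D : ℝ)| * (N * nrm e ρ g) := by
          apply Finset.sum_le_sum
          intro i _
          rw [nrm_zsmul, nrm_pi_pow_mul e ρ π N ε H.hρ H.hρN H.hε H.he H.hπ]
          have h5 : |((e.repr y i % D : ℤ) : ℝ)| ≤ |(D : ℝ)| := by
            have h6 : 0 ≤ e.repr y i % D := Int.emod_nonneg _ hD0
            have h7 : e.repr y i % D < |D| := Int.emod_lt_abs _ hD0
            have h8 : |e.repr y i % D| ≤ |D| := by rw [abs_of_nonneg h6]; exact h7.le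
            exact_mod_cast h8
          have h6 : ρ ^ (i : ℕ) ≤ N := by
            rw [← H.hρN]
            exact pow_le_pow_right₀ H.hρ i.2.le
          exact mul_le_mul h5 (mul_le_mul_of_nonneg_right h6 (nrm_nonneg e ρ g))
            (mul_nonneg (pow_nonneg hρ0 _) (nrm_nonneg e ρ g)) hDpos.le
      _ = |(D : ℝ)| * ((s + 1) * N * nrm e ρ g) := by
          rw [Finset.sum_const, Finset.card_univ, Fintype.card_fin, nsmul_eq_mul]
          push_cast
          ring
  rw [h2] at h3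
  exact le_of_mul_le_mul_left h3 hDpos

end Pool.Agent.H678R2.PiAdic
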